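import Pool.Agent.N963.KL.Stm

set_option autoImplicit false

/-!
# KL/TAU: local comparison of `S (W - log n) * gg (W - log n) / S W` with `n ^ (-q)`
-/

namespace Pool.Agent.N362.KL

open Complex Filter Topology MeasureTheory
open scoped ComplexConjugate
open Pool.Agent.N963.KL

section

variable {S : ℂ → ℂ} {κ : ℝ} (hS : SS S κ)

include hS

theorem diff_q (w : ℂ) (hw : 0 < w.re) : DifferentiableAt ℂ (logDeriv S) w := by
  have h1 : DifferentiableAt ℂ (deriv S) w := (hS.diff.analyticAt w).deriv.differentiableAt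
  exact h1.div (hS.diff w) (hS.ne w hw)

omit hS in
theorem hd_line (W : ℂ) (v : ℝ) : HasDerivAt (fun v : ℝ => W - (v : ℂ)) (-1) v := by
  simpa using (Complex.ofRealCLM.hasDerivAt (x := v)).const_sub W

theorem hd_q (W : ℂ) {v : ℝ} (hv : v < W.re) :
    HasDerivAt (fun v : ℝ => logDeriv S (W - v)) (-(deriv (logDeriv S) (W - v))) v := by
  have hw : 0 < (W - v).re := by
    rw [sub_re, ofReal_re]
    linarith
  have h1 := (diff_q hS _ hw).hasDerivAt.comp v (hd_line W v)
  rw [mul_neg_one] at h1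
  exact h1

theorem hd_r (W : ℂ) {v : ℝ} (hv : v < W.re) :
    HasDerivAt (fun v : ℝ => (logDeriv S (W - v)).re) (-(deriv (logDeriv S) (W - v)).re) v := by
  have h := Complex.reCLM.hasFDerivAt.comp_hasDerivAt v (hd_q hS W hv)
  rw [reCLM_apply, neg_re] at h
  exact h

theorem hd_S (W : ℂ) {v : ℝ} (hv : v < W.re) :
    HasDerivAt (fun v : ℝ => S (W - v)) (-(logDeriv S (W - v) * S (W - v))) v := by
  have hw : 0 < (W - v).re := by
    rw [sub_re, ofReal_re]
    linarith
  have h1 := (hS.diff (W - v)).hasDerivAt.comp v (hd_line W v)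
  rw [mul_neg_one] at h1
  have h2 : logDeriv S (W - v) * S (W - v) = deriv S (W - v) := by
    rw [logDeriv_apply]
    exact div_mul_cancel₀ _ (hS.ne _ hw)
  rw [h2]
  exact h1

theorem der_le (W : ℂ) {M v : ℝ} (hvM : v ≤ M) (hM : M < W.re) :
    ‖deriv (logDeriv S) (W - v)‖ ≤ (logDeriv S (W - v)).re / (W.re - M) := by
  have hw : 0 < (W - v).re := by
    rw [sub_re, ofReal_re]
    linarith
  have h1 := hS.der _ hw
  rw [le_div_iff₀ (by linarith)]
  refine le_trans ?_ h1
  refine mul_le_mul_of_nonneg_left ?_ (norm_nonneg _)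
  rw [sub_re, ofReal_re]
  linarith

omit hS in
theorem exp_le_two {x : ℝ} (hx : x ≤ 1 / 2) : Real.exp x ≤ 2 := by
  have h1 := Real.add_one_le_exp (-x)
  have h2 : (1 / 2 : ℝ) ≤ Real.exp (-x) := by linarith
  rw [Real.exp_neg] at h2
  have h3 := Real.exp_pos x
  rw [le_inv_comm₀ (by norm_num) h3] at h2
  norm_num at h2
  exact h2

theorem r_bounds (W : ℂ) {M : ℝ} (hM : 0 ≤ M) (hD : M < W.re) (h2 : 2 * M ≤ W.re - M) {v : ℝ}
    (hv : 0 ≤ v) (hvM : v ≤ M) :
    (logDeriv S W).re / 2 ≤ (logDeriv S (W - v)).re ∧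
      (logDeriv S (W - v)).re ≤ 2 * (logDeriv S W).re := by
  have hDp : 0 < W.re - M := by linarith
  set a : ℝ := 1 / (W.re - M) with ha
  have ha0 : 0 < a := by positivity
  have hav : a * v ≤ 1 / 2 := by
    rw [ha, one_div, inv_mul_eq_div, div_le_iff₀ hDp]
    linarith
  have hexp := exp_le_two hav
  have hb : ∀ x : ℝ, x ≤ M → |(deriv (logDeriv S) (W - x)).re| ≤ a * (logDeriv S (W - x)).re := by
    intro x hx
    refine (Complex.abs_re_le_norm _).trans ((der_le hS W hx hD).trans (le_of_eq ?_))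
    rw [ha]
    ring
  have hd1 : ∀ x : ℝ, x ≤ M → HasDerivAt (fun x : ℝ => (logDeriv S (W - x)).re * Real.exp (a * x))
      ((-(deriv (logDeriv S) (W - x)).re + a * (logDeriv S (W - x)).re) * Real.exp (a * x)) x := by
    intro x hx
    have h3 : HasDerivAt (fun x : ℝ => Real.exp (a * x)) (Real.exp (a * x) * a) x := by
      simpa using ((hasDerivAt_id x).const_mul a).exp
    refine ((hd_r hS W (lt_of_le_of_lt hx hD)).mul h3).congr_deriv ?_
    ring
  have hd2 : ∀ x : ℝ, x ≤ M → HasDerivAt (fun x : ℝ => (logDeriv S (W - x)).re * Real.exp (-a * x))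
      ((-(deriv (logDeriv S) (W - x)).re - a * (logDeriv S (W - x)).re) * Real.exp (-a * x)) x := by
    intro x hx
    have h3 : HasDerivAt (fun x : ℝ => Real.exp (-a * x)) (Real.exp (-a * x) * (-a)) x := by
      simpa using ((hasDerivAt_id x).const_mul (-a)).exp
    refine ((hd_r hS W (lt_of_le_of_lt hx hD)).mul h3).congr_deriv ?_
    ring
  have m1 : MonotoneOn (fun x : ℝ => (logDeriv S (W - x)).re * Real.exp (a * x)) (Set.Icc 0 M) := by
    refine monotoneOn_of_deriv_nonneg (convex_Icc 0 M)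
      (fun x hx => (hd1 x hx.2).continuousAt.continuousWithinAt) ?_ ?_
    · intro x hx
      rw [interior_Icc] at hx
      exact (hd1 x hx.2.le).differentiableAt.differentiableWithinAt
    · intro x hx
      rw [interior_Icc] at hx
      rw [(hd1 x hx.2.le).deriv]
      have := (abs_le.1 (hb x hx.2.le)).2
      exact mul_nonneg (by linarith) (Real.exp_pos _).le
  have m2 : AntitoneOn (fun x : ℝ => (logDeriv S (W - x)).re * Real.exp (-a * x))
      (Set.Icc 0 M) := by
    refine antitoneOn_of_deriv_nonpos (convex_Icc 0 M)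
      (fun x hx => (hd2 x hx.2).continuousAt.continuousWithinAt) ?_ ?_
    · intro x hx
      rw [interior_Icc] at hx
      exact (hd2 x hx.2.le).differentiableAt.differentiableWithinAt
    · intro x hx
      rw [interior_Icc] at hx
      rw [(hd2 x hx.2.le).deriv]
      have := (abs_le.1 (hb x hx.2.le)).1
      exact mul_nonpos_of_nonpos_of_nonneg (by linarith) (Real.exp_pos _).le
  have hr : 0 ≤ (logDeriv S (W - v)).re := hS.pos _ (by
    rw [sub_re, ofReal_re]
    linarith)
  have hr0 : 0 ≤ (logDeriv S W).re := hS.pos _ (by linarith)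
  have k1 := m1 ⟨le_rfl, hM⟩ ⟨hv, hvM⟩ hv
  have k2 := m2 ⟨le_rfl, hM⟩ ⟨hv, hvM⟩ hv
  simp only [ofReal_zero, sub_zero, mul_zero, Real.exp_zero, mul_one] at k1 k2
  constructor
  · nlinarith
  · have e1 : Real.exp (-a * v) * Real.exp (a * v) = 1 := by
      rw [← Real.exp_add]
      ring_nf
      exact Real.exp_zero
    have e2 := Real.exp_pos (a * v)
    calc (logDeriv S (W - v)).re
        = ((logDeriv S (W - v)).re * Real.exp (-a * v)) * Real.exp (a * v) := by
          rw [mul_assoc, e1, mul_one]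
      _ ≤ (logDeriv S W).re * Real.exp (a * v) := mul_le_mul_of_nonneg_right k2 e2.le
      _ ≤ (logDeriv S W).re * 2 := mul_le_mul_of_nonneg_left hexp hr0
      _ = 2 * (logDeriv S W).re := by ring

/-- decay when the logarithmic derivative is large -/
theorem caseB (W : ℂ) {u k : ℝ} (hu : 0 ≤ u) (huW : u < W.re)
    (hk : ∀ v : ℝ, 0 ≤ v → v ≤ u → k ≤ (logDeriv S (W - v)).re) :
    ‖S (W - u)‖ ≤ ‖S W‖ * Real.exp (-(k * u)) := by
  have hd : ∀ x : ℝ, x ≤ u → HasDerivAt (fun x : ℝ => S (W - x) * ((Real.exp (k * x) : ℝ) : ℂ))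
      ((k - logDeriv S (W - x)) * (S (W - x) * ((Real.exp (k * x) : ℝ) : ℂ))) x := by
    intro x hx
    have h3 : HasDerivAt (fun x : ℝ => Real.exp (k * x)) (Real.exp (k * x) * k) x := by
      simpa using ((hasDerivAt_id x).const_mul k).exp
    have h4 := h3.ofReal_comp
    refine ((hd_S hS W (lt_of_le_of_lt hx huW)).mul h4).congr_deriv ?_
    push_cast
    ring
  have hd' : ∀ x : ℝ, x ≤ u → HasDerivAt
      (fun x : ℝ => ‖S (W - x) * ((Real.exp (k * x) : ℝ) : ℂ)‖ ^ 2)
      (2 * ((k - (logDeriv S (W - x)).re) * ‖S (W - x) * ((Real.exp (k * x) : ℝ) : ℂ)‖ ^ 2)) x := by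
    intro x hx
    refine (hd x hx).norm_sq.congr_deriv ?_
    rw [Complex.inner, mul_assoc, Complex.mul_conj, Complex.normSq_eq_norm_sq, re_mul_ofReal,
      sub_re, ofReal_re]
  have m2 : AntitoneOn (fun x : ℝ => ‖S (W - x) * ((Real.exp (k * x) : ℝ) : ℂ)‖ ^ 2)
      (Set.Icc 0 u) := by
    refine antitoneOn_of_deriv_nonpos (convex_Icc 0 u)
      (fun x hx => (hd' x hx.2).continuousAt.continuousWithinAt) ?_ ?_
    · intro x hx
      rw [interior_Icc] at hx
      exact (hd' x hx.2.le).differentiableAt.differentiableWithinAt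
    · intro x hx
      rw [interior_Icc] at hx
      rw [(hd' x hx.2.le).deriv]
      have h5 := hk x hx.1.le hx.2.le
      have h6 : 0 ≤ ‖S (W - x) * ((Real.exp (k * x) : ℝ) : ℂ)‖ ^ 2 := by positivity
      nlinarith
  have k2 := m2 ⟨le_rfl, hu⟩ ⟨hu, le_rfl⟩ hu
  simp only [ofReal_zero, sub_zero, mul_zero, Real.exp_zero, ofReal_one, mul_one] at k2
  have k3 := (sq_le_sq₀ (norm_nonneg _) (norm_nonneg _)).1 k2
  rw [norm_mul, Complex.norm_real, Real.norm_eq_abs, abs_of_pos (Real.exp_pos _)] at k3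
  rw [Real.exp_neg, ← div_eq_mul_inv, le_div_iff₀ (Real.exp_pos _)]
  exact k3

/-- comparison with the exponential -/
theorem caseA (W : ℂ) {u ε : ℝ} (hu : 0 ≤ u) (huW : u < W.re) (hε : 0 < ε)
    (hk : ∀ v : ℝ, 0 ≤ v → v ≤ u → ‖logDeriv S (W - v) - logDeriv S W‖ ≤ ε) :
    ‖S (W - u) / S W - cexp (-(logDeriv S W * u))‖ ≤ Real.exp (ε * u) - 1 := by
  have hW : 0 < W.re := by linarith
  have hS0 := hS.ne W hW
  set q : ℂ := logDeriv S W with hq
  set f : ℝ → ℂ := fun x => S (W - x) / S W * cexp (q * x) - 1 with hf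
  have hd : ∀ x : ℝ, x ≤ u → HasDerivAt f ((q - logDeriv S (W - x)) * (f x + 1)) x := by
    intro x hx
    have h3 : HasDerivAt (fun x : ℝ => cexp (q * x)) (cexp (q * x) * q) x := by
      have h4 : HasDerivAt (fun x : ℝ => q * (x : ℂ)) q x := by
        simpa using (Complex.ofRealCLM.hasDerivAt (x := x)).const_mul q
      exact h4.cexp
    have h5 := (((hd_S hS W (lt_of_le_of_lt hx huW)).div_const (S W)).mul h3).sub_const 1
    rw [hf]
    refine h5.congr_deriv ?_
    simp only
    ring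
  have key := norm_le_gronwallBound_of_norm_deriv_right_le (f := f)
    (f' := fun x => (q - logDeriv S (W - x)) * (f x + 1)) (δ := 0) (K := ε) (ε := ε) (a := 0)
    (b := u) (fun x hx => (hd x hx.2).continuousAt.continuousWithinAt)
    (fun x hx => (hd x hx.2.le).hasDerivWithinAt) (by
      rw [hf]
      simp [div_self hS0]) (by
      intro x hx
      rw [norm_mul]
      have h1 := hk x hx.1 hx.2.le
      rw [norm_sub_rev] at h1
      have h2 : ‖f x + 1‖ ≤ ‖f x‖ + 1 := by
        simpa using norm_add_le (f x) 1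
      calc ‖q - logDeriv S (W - x)‖ * ‖f x + 1‖ ≤ ε * (‖f x‖ + 1) := by gcongr
        _ = ε * ‖f x‖ + ε := by ring) u ⟨hu, le_rfl⟩
  rw [gronwallBound_of_K_ne_0 hε.ne'] at key
  simp only [zero_mul, sub_zero, zero_add, div_self hε.ne', one_mul] at key
  have e1 : S (W - u) / S W - cexp (-(q * u)) = cexp (-(q * u)) * f u := by
    rw [hf]
    simp only
    have : cexp (-(q * u)) * cexp (q * u) = 1 := by
      rw [← Complex.exp_add, neg_add_cancel, Complex.exp_zero]
    linear_combination (-(S (W - u) / S W)) * this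
  rw [e1, norm_mul]
  have e2 : ‖cexp (-(q * u))‖ ≤ 1 := by
    rw [Complex.norm_exp, Real.exp_le_one_iff, neg_re, re_mul_ofReal, neg_nonpos]
    exact mul_nonneg (hS.pos W hW) hu
  calc ‖cexp (-(q * u))‖ * ‖f u‖ ≤ 1 * ‖f u‖ := by gcongr
    _ ≤ Real.exp (ε * u) - 1 := by rw [one_mul]; exact key

end

theorem cpow_nat {n : ℕ} (hn : 1 ≤ n) (q : ℂ) :
    (n : ℂ) ^ (-q) = cexp (-(q * (Real.log n : ℝ))) := by
  have hn0 : (n : ℂ) ≠ 0 := by
    have : n ≠ 0 := by omega
    exact_mod_cast this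
  rw [Complex.cpow_def_of_ne_zero hn0, ← Complex.natCast_log]
  congr 1
  ring

/-- **TAU** -/
theorem tau : S_TAU := by
  intro hLPB hGG S κ κ' hS hκ1 hκ2 hκ3 η N hη
  obtain ⟨C0, L1, hC0, hL1, -, hlow⟩ := hLPB S κ κ' hS (by linarith) hκ2
  obtain ⟨-, -, ⟨Cg, hCg, -, hgg⟩, -⟩ := hGG
  -- the constants
  obtain ⟨M, hM⟩ : ∃ M : ℝ, M = Real.log ((N : ℝ) + 1) := ⟨_, rfl⟩
  have hM0 : 0 ≤ M := by
    rw [hM]
    refine Real.log_nonneg ?_
    have : (0 : ℝ) ≤ N := Nat.cast_nonneg N
    linarith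
  have hMn : ∀ n : ℕ, 1 ≤ n → n ≤ N → Real.log n ≤ M := by
    intro n h1 h2
    rw [hM]
    refine Real.log_le_log (by exact_mod_cast h1) ?_
    have : (n : ℝ) ≤ N := by exact_mod_cast h2
    linarith
  obtain ⟨δ, hδ⟩ : ∃ δ : ℝ, δ = min (η / 2) 1 := ⟨_, rfl⟩
  have hδ0 : 0 < δ := by rw [hδ]; exact lt_min (by positivity) one_pos
  have hδ1 : δ ≤ 1 := by rw [hδ]; exact min_le_right _ _
  have hδη : δ ≤ η / 2 := by rw [hδ]; exact min_le_left _ _
  obtain ⟨K, hK⟩ : ∃ K : ℝ, K = max 1 (2 * Real.log (3 / η) / Real.log 2) := ⟨_, rfl⟩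
  have hl2 : 0 < Real.log 2 := Real.log_pos (by norm_num)
  have hK1 : 1 ≤ K := by rw [hK]; exact le_max_left _ _
  have hK2 : 2 * Real.log (3 / η) / Real.log 2 ≤ K := by rw [hK]; exact le_max_right _ _
  have hKη : Real.exp (-(K / 2 * Real.log 2)) ≤ η / 3 := by
    rw [div_le_iff₀ hl2] at hK2
    have h1 : Real.log (3 / η) ≤ K / 2 * Real.log 2 := by linarith
    calc Real.exp (-(K / 2 * Real.log 2)) ≤ Real.exp (-Real.log (3 / η)) := by
          apply Real.exp_le_exp.2
          linarith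
      _ = η / 3 := by
          rw [← Real.log_inv, Real.exp_log (by positivity), inv_div]
  obtain ⟨ε, hε⟩ : ∃ ε : ℝ, ε = Real.log (1 + δ) / (M + 1) := ⟨_, rfl⟩
  have hlδ : 0 < Real.log (1 + δ) := Real.log_pos (by linarith)
  have hε0 : 0 < ε := by rw [hε]; positivity
  have hεM : ∀ u : ℝ, 0 ≤ u → u ≤ M → Real.exp (ε * u) - 1 ≤ δ := by
    intro u hu huM
    have h1 : ε * u ≤ Real.log (1 + δ) := by
      have h2 : ε * (M + 1) = Real.log (1 + δ) := by
        rw [hε]
        exact div_mul_cancel₀ _ (by linarith)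
      rw [← h2]
      exact mul_le_mul_of_nonneg_left (by linarith) hε0.le
    have h3 := Real.exp_le_exp.2 h1
    rw [Real.exp_log (by linarith)] at h3
    linarith
  obtain ⟨L3, hL3⟩ : ∃ L3 : ℝ, L3 = M + (1 + 2 * M + 2 * K * M / ε + 2 * Cg / δ + L1) := ⟨_, rfl⟩
  have t1 : 0 ≤ 2 * K * M / ε := by positivity
  have t2 : 0 ≤ 2 * Cg / δ := by positivity
  refine ⟨L3, by rw [hL3]; linarith, fun L hL W hW => ?_⟩
  rw [hL3] at hL
  have hWre : W.re = L := by
    rw [hW]
    simp
  have hWim : W.im = Real.pi / 4 := by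
    rw [hW]
    simp
  have him : ∀ v : ℝ, |(W - v).im| ≤ 1 := by
    intro v
    rw [sub_im, ofReal_im, sub_zero, hWim, abs_of_pos (by positivity)]
    have := Real.pi_le_four
    linarith
  have hMW : M < W.re := by rw [hWre]; linarith
  have hMW2 : 2 * M ≤ W.re - M := by rw [hWre]; linarith
  have hD : 0 < L - M := by linarith
  have hS0 := hS.ne W (by linarith)
  -- the cut-off
  have hg : ∀ u : ℝ, 0 ≤ u → u ≤ M → ‖1 - gg (W - u)‖ ≤ δ / 2 := by
    intro u hu huM
    have hre : (W - u).re = L - u := by rw [sub_re, ofReal_re, hWre]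
    have h1 := hgg (W - u) (him u) (by rw [hre]; linarith)
    refine h1.trans ?_
    rw [hre]
    have h2 : Real.exp (-(L - u)) ≤ 1 / (L - M) := by
      rw [Real.exp_neg, ← one_div]
      refine one_div_le_one_div_of_le hD ?_
      have := Real.add_one_le_exp (L - u)
      linarith
    have h3 : 2 * Cg / δ ≤ L - M := by linarith
    rw [div_le_iff₀ hδ0] at h3
    calc Cg * Real.exp (-(L - u)) ≤ Cg * (1 / (L - M)) := by gcongr
      _ ≤ δ / 2 := by
          rw [mul_one_div, div_le_div_iff₀ hD (by norm_num)]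
          linarith
  have hq : κ' ≤ (logDeriv S W).re := hlow W (by rw [hWre]; linarith) (by
    have := him 0
    rwa [ofReal_zero, sub_zero] at this)
  -- reduction
  have red : ∀ (X g z : ℂ) (e : ℝ), ‖X‖ ≤ 2 → ‖1 - g‖ ≤ δ / 2 → ‖X - z‖ ≤ e → ‖X * g - z‖ ≤ e + δ := by
    intro X g z e h1 h2 h3
    have h4 : X * g - z = (X - z) - X * (1 - g) := by ring
    rw [h4]
    refine (norm_sub_le _ _).trans ?_
    rw [norm_mul]
    have : ‖X‖ * ‖1 - g‖ ≤ 2 * (δ / 2) := by gcongr
    linarith
  rcases le_or_gt (logDeriv S W).re K with hcase | hcase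
  · -- bounded logarithmic derivative
    refine ⟨logDeriv S W, hq, fun n h1 h2 => ?_⟩
    have hu0 : 0 ≤ Real.log n := Real.log_nonneg (by exact_mod_cast h1)
    have huM := hMn n h1 h2
    have hclose : ∀ v : ℝ, 0 ≤ v → v ≤ Real.log n → ‖logDeriv S (W - v) - logDeriv S W‖ ≤ ε := by
      intro v hv hvu
      have key := norm_image_sub_le_of_norm_deriv_le_segment' (f := fun v : ℝ => logDeriv S (W - v))
        (f' := fun v : ℝ => -(deriv (logDeriv S) (W - v))) (C := 2 * K / (L - M)) (a := 0) (b := M)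
        (fun x hx => (hd_q hS W (lt_of_le_of_lt hx.2 hMW)).hasDerivWithinAt) (by
          intro x hx
          rw [norm_neg]
          refine (der_le hS W hx.2.le hMW).trans ?_
          rw [hWre]
          have := (r_bounds hS W hM0 hMW hMW2 hx.1 hx.2.le).2
          gcongr
          linarith) v ⟨hv, hvu.trans huM⟩
      simp only [ofReal_zero, sub_zero] at key
      refine key.trans ?_
      have h3 : 2 * K * M / ε ≤ L - M := by linarith
      rw [div_le_iff₀ hε0] at h3
      calc 2 * K / (L - M) * v ≤ 2 * K / (L - M) * M := by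
            gcongr
            exact hvu.trans huM
        _ ≤ ε := by
            rw [div_mul_eq_mul_div, div_le_iff₀ hD]
            linarith
    have hA := caseA hS W hu0 (lt_of_le_of_lt huM hMW) hε0 hclose
    have hA' := hA.trans (hεM _ hu0 huM)
    have hn2 : ‖cexp (-(logDeriv S W * (Real.log n : ℝ)))‖ ≤ 1 := by
      rw [Complex.norm_exp, Real.exp_le_one_iff, neg_re, re_mul_ofReal, neg_nonpos]
      exact mul_nonneg (by linarith) hu0
    have hX : ‖S (W - Real.log n) / S W‖ ≤ 2 := by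
      have h5 : S (W - Real.log n) / S W = (S (W - Real.log n) / S W -
          cexp (-(logDeriv S W * (Real.log n : ℝ)))) + cexp (-(logDeriv S W * (Real.log n : ℝ))) := by
        ring
      rw [h5]
      refine (norm_add_le _ _).trans ?_
      linarith
    have h6 := red _ _ _ _ hX (hg _ hu0 huM) hA'
    rw [cpow_nat h1, mul_div_right_comm]
    linarith
  · -- large logarithmic derivative
    refine ⟨(K : ℂ), by rw [ofReal_re]; linarith, fun n h1 h2 => ?_⟩
    have hu0 : 0 ≤ Real.log n := Real.log_nonneg (by exact_mod_cast h1)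
    have huM := hMn n h1 h2
    have hB := caseB hS W (k := K / 2) hu0 (lt_of_le_of_lt huM hMW) (by
      intro v hv hvu
      have := (r_bounds hS W hM0 hMW hMW2 hv (hvu.trans huM)).1
      linarith)
    have hX : ‖S (W - Real.log n) / S W‖ ≤ Real.exp (-(K / 2 * Real.log n)) := by
      rw [norm_div, div_le_iff₀ (norm_pos_iff.2 hS0), mul_comm]
      exact hB
    have hX2 : ‖S (W - Real.log n) / S W‖ ≤ 2 := by
      refine hX.trans (le_trans (Real.exp_le_one_iff.2 ?_) (by norm_num))
      rw [neg_nonpos]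
      positivity
    rw [cpow_nat h1, mul_div_right_comm]
    rcases Nat.lt_or_ge n 2 with hn | hn
    · have hn1 : n = 1 := by omega
      subst hn1
      have h6 := red (S (W - Real.log (1 : ℕ)) / S W) (gg (W - Real.log (1 : ℕ)))
        (cexp (-((K : ℂ) * (Real.log (1 : ℕ) : ℝ)))) 0 hX2 (hg _ hu0 huM) (by
          simp [div_self hS0])
      linarith
    · have hlog : Real.log 2 ≤ Real.log n := by
        refine Real.log_le_log (by norm_num) ?_
        exact_mod_cast hn
      have e1 : Real.exp (-(K / 2 * Real.log n)) ≤ η / 3 := by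
        refine le_trans (Real.exp_le_exp.2 ?_) hKη
        have : K / 2 * Real.log 2 ≤ K / 2 * Real.log n := by gcongr
        linarith
      have e2 : ‖cexp (-((K : ℂ) * (Real.log n : ℝ)))‖ ≤ η / 3 := by
        rw [Complex.norm_exp, neg_re, re_mul_ofReal, ofReal_re]
        refine le_trans (Real.exp_le_exp.2 ?_) e1
        have : K / 2 * Real.log n ≤ K * Real.log n := by
          gcongr
          linarith
        linarith
      have e3 : ‖gg (W - Real.log n)‖ ≤ 3 / 2 := by
        have h7 : gg (W - Real.log n) = 1 - (1 - gg (W - Real.log n)) := by ring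
        rw [h7]
        refine (norm_sub_le _ _).trans ?_
        rw [norm_one]
        have := hg _ hu0 huM
        linarith
      refine (norm_sub_le _ _).trans ?_
      rw [norm_mul]
      have e4 : ‖S (W - Real.log n) / S W‖ * ‖gg (W - Real.log n)‖ ≤ η / 3 * (3 / 2) := by
        have := hX.trans e1
        gcongr
      linarith

end Pool.Agent.N362.KL
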